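import Mathlib
import Pool.Graph.R_pool_sql_team_seeded_843ab51a.H17Sv.G

/-!
# The rings of integers of global fields are ADDB-domains
-/

set_option autoImplicit false

open Pool.Agent.H17Sv Polynomial

namespace Pool.Agent.H34.Ipg

theorem hasFiniteQuotients_poly (F : Type*) [Field F] [Finite F] : Ring.HasFiniteQuotients F[X] where
  finiteQuotient {I} hI := by
    obtain ⟨p, rfl⟩ := Submodule.IsPrincipal.principal I
    have hp : p ≠ 0 := by
      rintro rfl
      simp at hI
    have h1 : Module.Finite F (AdjoinRoot p) := (AdjoinRoot.powerBasis hp).finite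
    have h2 : Finite (AdjoinRoot p) := Module.finite_of_finite F
    exact h2

theorem not_isField_of_finite (R : Type*) {D : Type*} [CommRing R] [CommRing D] [IsDomain D]
    [Algebra R D] [Module.Finite R D] [FaithfulSMul R D] (hR : ¬ IsField R) : ¬ IsField D := by
  intro h
  exact hR ((Algebra.IsIntegral.isField_iff_isField
    (FaithfulSMul.algebraMap_injective R D)).2 h)

theorem bounded_of_finite {D : Type*} [CommRing D] [IsDedekindDomain D] [Ring.HasFiniteQuotients D]
    (p : D) (hp : p ≠ 0) : BoundedAt p := by
  classical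
  have hfin : {M : Ideal D | p ∈ M}.Finite := by
    have h1 : Ideal.span {p} ≠ ⊥ := by simpa using hp
    have h2 : Finite (D ⧸ Ideal.span {p}) := Ring.HasFiniteQuotients.finiteQuotient h1
    have h3 : {M : Ideal D | p ∈ M} ⊆ Set.range (fun J : Ideal (D ⧸ Ideal.span {p}) =>
        J.comap (Ideal.Quotient.mk (Ideal.span {p}))) := by
      intro M hM
      refine ⟨M.map (Ideal.Quotient.mk (Ideal.span {p})), ?_⟩
      show Ideal.comap _ (Ideal.map _ M) = M
      rw [Ideal.comap_map_of_surjective' _ Ideal.Quotient.mk_surjective, Ideal.mk_ker]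
      exact sup_eq_left.2 ((Ideal.span_singleton_le_iff_mem _).2 hM)
    exact (Set.finite_range _).subset h3
  have key : ∀ M : Ideal D, ∃ c : ℕ, ∀ (hM : M.IsMaximal),
      algebraMap D (Localization.AtPrime M) p ∉
        IsLocalRing.maximalIdeal (Localization.AtPrime M) ^ c := by
    intro M
    by_cases hM : M.IsMaximal
    · by_contra hcon
      push Not at hcon
      have h1 : algebraMap D (Localization.AtPrime M) p ∈
          ⨅ c : ℕ, IsLocalRing.maximalIdeal (Localization.AtPrime M) ^ c := by
        rw [Submodule.mem_iInf]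
        intro c
        obtain ⟨_, h⟩ := hcon c
        exact h
      rw [Ideal.iInf_pow_eq_bot_of_isLocalRing _ (Ideal.IsPrime.ne_top inferInstance)] at h1
      have h2 := (map_eq_zero_iff _ (IsLocalization.injective (Localization.AtPrime M)
        M.primeCompl_le_nonZeroDivisors)).1 h1
      exact hp h2
    · exact ⟨0, fun h => absurd h hM⟩
  choose c hc using key
  obtain ⟨N, hN⟩ := (hfin.image fun M : Ideal D => max (c M) (Nat.card (D ⧸ M))).bddAbove
  refine ⟨N, fun M hM hpM => ⟨fun h => hc M hM (Ideal.pow_le_pow_right ?_ h), ?_⟩⟩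
  · have := hN ⟨M, hpM, rfl⟩
    exact (le_max_left _ _).trans (this.trans (Nat.le_succ N))
  · have := hN ⟨M, hpM, rfl⟩
    exact (le_max_right _ _).trans this

theorem isADDB_of_finite (R : Type*) {D : Type*} [CommRing R] [CommRing D] [IsDedekindDomain D]
    [Algebra R D] [Module.Finite R D] [FaithfulSMul R D] [Ring.HasFiniteQuotients R]
    (hR : ¬ IsField R) (D₀ : Subring D)
    (hD₀ : Nonempty (D₀ ≃+* ℤ) ∨ ∃ l : ℕ, l.Prime ∧ Nonempty (D₀ ≃+* (ZMod l)[X])) : IsADDB D := by
  have hF := not_isField_of_finite R (D := D) hR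
  have hq : Ring.HasFiniteQuotients D := Ring.HasFiniteQuotients.of_module_finite R D
  exact {
    not_isField := hF
    almost_dedekind := by
      intro M hM
      exact IsLocalization.AtPrime.isDiscreteValuationRing_of_dedekind_domain D
        (Ring.ne_bot_of_isMaximal_of_not_isField hM hF) _
    finite_residue := by
      intro M hM
      exact Ring.HasFiniteQuotients.finiteQuotient
        (Ring.ne_bot_of_isMaximal_of_not_isField hM hF)
    bounded := ⟨D₀, hD₀, fun p hp => bounded_of_finite _ fun h => hp.ne_zero (Subtype.ext h)⟩ }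

end Pool.Agent.H34.Ipg
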