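import Mathlib

/-!
# Algebras which contain all their integral fractions, over a ring with an unbounded absolute value

`Full R A`: for `a ∈ A` and `0 ≠ n ∈ R` such that `a / n` is integral over `R`, the element `a` is
divisible by `n` in `A`. If `A` is torsion-free and finite over a principal ideal domain `R` with an
unbounded absolute value with values in `ℤ` (for example `ℤ` or `𝔽_q[t]`) this forces `A` to be
commutative and reduced.
-/

set_option autoImplicit false
set_option linter.unusedSectionVars false

open Polynomial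

namespace Pool.Agent.H34.Ipg

/-- `a / n` integral over `R` implies that `n` divides `a`. -/
def Full (R A : Type*) [CommRing R] [Ring A] [Algebra R A] : Prop :=
  ∀ (n : R) (a : A) (P : R[X]), n ≠ 0 → P.Monic → aeval a (P.scaleRoots n) = 0 →
    ∃ a' : A, a = n • a'

theorem aeval_scaleRoots {R A : Type*} [CommRing R] [Ring A] [Algebra R A] (n : R) (x : A)
    (P : R[X]) : aeval (n • x) (P.scaleRoots n) = n ^ P.natDegree • aeval x P := by
  rw [aeval_eq_sum_range, aeval_eq_sum_range, natDegree_scaleRoots, Finset.smul_sum]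
  refine Finset.sum_congr rfl fun k hk => ?_
  rw [coeff_scaleRoots, _root_.smul_pow, smul_smul, smul_smul]
  have hk' : k ≤ P.natDegree := by
    have := Finset.mem_range.1 hk
    omega
  congr 1
  rw [mul_assoc, ← pow_add, Nat.sub_add_cancel hk', mul_comm]

section norm

variable {R A : Type*} [CommRing R] [IsDomain R] [Ring A] [Algebra R A] (v : AbsoluteValue R ℤ)
  {ι : Type*} [Fintype ι] (b : Module.Basis ι R A)

/-- the sum of the absolute values of the coordinates -/
noncomputable def nm (a : A) : ℤ := ∑ i, v (b.repr a i)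

theorem nm_nonneg (a : A) : 0 ≤ nm v b a := Finset.sum_nonneg fun _ _ => v.nonneg _

theorem nm_zero : nm v b 0 = 0 := by simp [nm]

theorem nm_eq_zero {a : A} (h : nm v b a = 0) : a = 0 := by
  apply b.ext_elem
  intro i
  have := (Finset.sum_eq_zero_iff_of_nonneg (fun i _ => v.nonneg (b.repr a i))).1 h i
    (Finset.mem_univ i)
  rw [v.eq_zero.1 this]
  simp

theorem nm_add (x y : A) : nm v b (x + y) ≤ nm v b x + nm v b y := by
  unfold nm
  rw [← Finset.sum_add_distrib]
  refine Finset.sum_le_sum fun i _ => ?_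
  rw [map_add, Finsupp.add_apply]
  exact v.add_le _ _

theorem nm_smul (n : R) (x : A) : nm v b (n • x) = v n * nm v b x := by
  unfold nm
  rw [Finset.mul_sum]
  refine Finset.sum_congr rfl fun i _ => ?_
  rw [map_smul, Finsupp.smul_apply, smul_eq_mul, v.map_mul]

theorem nm_neg (x : A) : nm v b (-x) = nm v b x := by
  unfold nm
  refine Finset.sum_congr rfl fun i _ => ?_
  rw [map_neg, Finsupp.neg_apply, v.map_neg]

theorem nm_sum {κ : Type*} (s : Finset κ) (f : κ → A) :
    nm v b (∑ i ∈ s, f i) ≤ ∑ i ∈ s, nm v b (f i) := by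
  classical
  induction s using Finset.induction_on with
  | empty => simp [nm_zero]
  | insert i s hi ih =>
    rw [Finset.sum_insert hi, Finset.sum_insert hi]
    exact (nm_add v b _ _).trans (by linarith)

theorem nm_mul (u : A) : ∃ C : ℤ, 0 ≤ C ∧ ∀ x : A, nm v b (x * u) ≤ C * nm v b x := by
  refine ⟨∑ i, nm v b (b i * u), Finset.sum_nonneg fun i _ => nm_nonneg v b _, fun x => ?_⟩
  have h1 : x * u = ∑ i, b.repr x i • (b i * u) := by
    conv_lhs => rw [← b.sum_repr x]
    rw [Finset.sum_mul]
    exact Finset.sum_congr rfl fun i _ => by rw [smul_mul_assoc]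
  rw [h1]
  refine (nm_sum v b _ _).trans ?_
  rw [Finset.sum_mul]
  refine Finset.sum_le_sum fun i _ => ?_
  rw [nm_smul, mul_comm]
  refine mul_le_mul_of_nonneg_left ?_ (nm_nonneg v b _)
  exact Finset.single_le_sum (f := fun i => v (b.repr x i)) (fun i _ => v.nonneg _)
    (Finset.mem_univ i)

end norm

section main

variable {R A : Type*} [CommRing R] [IsDomain R] [Ring A] [Algebra R A] [Module.Finite R A]
  [Module.IsTorsionFree R A]

theorem smul_cancel {n : R} (hn : n ≠ 0) {x y : A} (h : n • x = n • y) : x = y :=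
  smul_right_injective A hn h

/-- An element which is not a right zero divisor has a multiple that is a nonzero element of `R`. -/
theorem exists_inv (R : Type*) {A : Type*} [CommRing R] [IsDomain R] [Ring A] [Algebra R A]
    [Module.Finite R A] (w : A) (hw : ∀ x : A, x * w = 0 → x = 0) :
    ∃ (N : R) (v : A), N ≠ 0 ∧ v * w = algebraMap R A N ∧ w * v = algebraMap R A N := by
  classical
  have hex : ∃ m : ℕ, ∃ Q : R[X], Q.Monic ∧ aeval w Q = 0 ∧ Q.natDegree = m := by
    obtain ⟨Q, hQ, hQ0⟩ := (Algebra.IsIntegral.isIntegral (R := R) w)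
    exact ⟨_, Q, hQ, hQ0, rfl⟩
  obtain ⟨Q, hQ, hQ0, hQm⟩ := Nat.find_spec hex
  have hmin : ∀ Q' : R[X], Q'.Monic → aeval w Q' = 0 → Q.natDegree ≤ Q'.natDegree := by
    intro Q' h1 h2
    rw [hQm]
    exact Nat.find_min' hex ⟨Q', h1, h2, rfl⟩
  have hdec : aeval w Q.divX * w + algebraMap R A (Q.coeff 0) = 0 := by
    have h := congrArg (aeval w) (divX_mul_X_add Q)
    rw [map_add, map_mul, aeval_X, aeval_C, hQ0] at h
    simpa using h
  have hcomm : w * aeval w Q.divX = aeval w Q.divX * w := by
    have h := ((Polynomial.commute_X Q.divX).map (aeval w)).eq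
    rwa [aeval_X] at h
  by_cases hc : Q.coeff 0 = 0
  · exfalso
    rw [hc, map_zero, add_zero] at hdec
    have h1 := hw _ hdec
    by_cases hd : Q.natDegree = 0
    · have hQ1 : Q = 1 := hQ.natDegree_eq_zero.1 hd
      rw [hQ1] at hc
      simp at hc
    · have hm : Q.divX.Monic := by
        unfold Monic leadingCoeff
        rw [natDegree_divX_eq_natDegree_tsub_one, coeff_divX, Nat.sub_add_cancel (by omega)]
        exact hQ
      have := hmin _ hm h1
      rw [natDegree_divX_eq_natDegree_tsub_one] at this
      omega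
  · refine ⟨-Q.coeff 0, aeval w Q.divX, neg_ne_zero.2 hc, ?_, ?_⟩
    · rw [map_neg]
      exact eq_neg_of_add_eq_zero_left hdec
    · rw [hcomm, map_neg]
      exact eq_neg_of_add_eq_zero_left hdec

/-- `w x w⁻¹ ∈ A`. -/
theorem conj_mem (hA : Full R A) (w x : A) (hw : ∀ x : A, x * w = 0 → x = 0) :
    ∃ y : A, w * x = y * w := by
  obtain ⟨N, v, hN, hv, hv'⟩ := exists_inv R w hw
  obtain ⟨P, hP, hP0⟩ := (Algebra.IsIntegral.isIntegral (R := R) x)
  replace hP0 : aeval x P = 0 := hP0
  have hpow : ∀ k : ℕ, (w * x * v) ^ (k + 1) = N ^ k • (w * x ^ (k + 1) * v) := by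
    intro k
    induction k with
    | zero => simp
    | succ k ih =>
      rw [pow_succ, ih]
      have e : w * x ^ (k + 1) * v * (w * x * v) = N • (w * x ^ (k + 1 + 1) * v) := by
        calc w * x ^ (k + 1) * v * (w * x * v) = w * x ^ (k + 1) * (v * w) * x * v := by
              simp only [mul_assoc]
          _ = algebraMap R A N * (w * x ^ (k + 1) * x * v) := by
              rw [hv, ← Algebra.commutes N (w * x ^ (k + 1))]
              simp only [mul_assoc]
          _ = N • (w * x ^ (k + 1 + 1) * v) := by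
              rw [Algebra.smul_def, pow_succ x (k + 1)]
              simp only [mul_assoc]
      rw [smul_mul_assoc, e, smul_smul, ← pow_succ]
  have hcong : ∀ k : ℕ, N • (w * x * v) ^ k = N ^ k • (w * x ^ k * v) := by
    intro k
    cases k with
    | zero => simp [hv', Algebra.smul_def]
    | succ k => rw [hpow, smul_smul, ← pow_succ']
  have h0 : N • aeval (w * x * v) (P.scaleRoots N) = 0 := by
    rw [aeval_eq_sum_range, natDegree_scaleRoots, Finset.smul_sum]
    have : ∀ k ∈ Finset.range (P.natDegree + 1),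
        N • ((P.scaleRoots N).coeff k • (w * x * v) ^ k) =
          N ^ P.natDegree • (w * (P.coeff k • x ^ k) * v) := by
      intro k hk
      have hk' : k ≤ P.natDegree := by
        have := Finset.mem_range.1 hk
        omega
      rw [smul_comm, hcong, coeff_scaleRoots, smul_smul, mul_smul_comm, smul_mul_assoc, smul_smul]
      congr 1
      rw [mul_assoc, ← pow_add, Nat.sub_add_cancel hk', mul_comm]
    rw [Finset.sum_congr rfl this, ← Finset.smul_sum, ← Finset.sum_mul, ← Finset.mul_sum,
      ← aeval_eq_sum_range, hP0]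
    simp
  have h1 : aeval (w * x * v) (P.scaleRoots N) = 0 :=
    smul_cancel hN (by rw [h0, smul_zero])
  obtain ⟨y, hy⟩ := hA N _ P hN hP h1
  refine ⟨y, smul_cancel hN ?_⟩
  have e : N • (y * w) = w * x * (v * w) := by
    rw [← smul_mul_assoc N y w, ← hy, mul_assoc (w * x) v w]
  rw [e, hv, Algebra.smul_def]
  exact Algebra.commutes N (w * x)

theorem comm_of_full [IsPrincipalIdealRing R] (v : AbsoluteValue R ℤ) (hv : ∀ C : ℤ, ∃ n : R, C < v n)
    (hA : Full R A) (x u : A) : u * x = x * u := by
  classical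
  let b := Module.Free.chooseBasis R A
  obtain ⟨C, hC0, hC⟩ := nm_mul v b u
  obtain ⟨n, hn⟩ := hv (C + nm v b (u * x - x * u))
  have hnc := nm_nonneg v b (u * x - x * u)
  have hn1 : C < v n := by linarith
  have hinj : ∀ y : A, y * (u + algebraMap R A n) = 0 → y = 0 := by
    intro y hy
    have h1 : n • y = -(y * u) := by
      rw [mul_add] at hy
      rw [Algebra.smul_def, Algebra.commutes n y]
      exact eq_neg_of_add_eq_zero_right hy
    have h2 := hC y
    have h3 := nm_smul v b n y
    rw [h1, nm_neg] at h3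
    have h4 := nm_nonneg v b y
    apply nm_eq_zero v b
    nlinarith
  obtain ⟨y, hy⟩ := conj_mem hA (u + algebraMap R A n) x hinj
  have h5 : u * x - x * u = (y - x) * (u + algebraMap R A n) := by
    rw [sub_mul, ← hy, add_mul, mul_add, Algebra.commutes n x]
    abel
  have h6 : n • (y - x) = (u * x - x * u) + -((y - x) * u) := by
    rw [h5, mul_add, Algebra.smul_def, Algebra.commutes n (y - x)]
    abel
  have h7 := hC (y - x)
  have h8 := nm_smul v b n (y - x)
  rw [h6] at h8
  have h9 := nm_add v b (u * x - x * u) (-((y - x) * u))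
  rw [nm_neg] at h9
  have h10 := nm_nonneg v b (y - x)
  have h11 : nm v b (y - x) = 0 := by
    by_contra hne
    have : 1 ≤ nm v b (y - x) := by omega
    nlinarith
  have h12 := nm_eq_zero v b h11
  rw [h12, zero_mul] at h5
  exact sub_eq_zero.1 h5

theorem reduced_of_full [IsPrincipalIdealRing R] (v : AbsoluteValue R ℤ)
    (hv : ∀ C : ℤ, ∃ n : R, C < v n) (hA : Full R A) (a : A) (m : ℕ) (h : a ^ m = 0) : a = 0 := by
  classical
  let b := Module.Free.chooseBasis R A
  obtain ⟨n, hn⟩ := hv (nm v b a)
  have hna := nm_nonneg v b a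
  have hn0 : n ≠ 0 := by
    rintro rfl
    rw [v.map_zero] at hn
    omega
  obtain ⟨a', ha'⟩ := hA n a (X ^ m) hn0 (monic_X_pow m) (by
    rw [aeval_eq_sum_range, natDegree_scaleRoots]
    refine Finset.sum_eq_zero fun k hk => ?_
    rw [coeff_scaleRoots, coeff_X_pow]
    split_ifs with hkm
    · rw [hkm, h, smul_zero]
    · simp)
  have h1 := nm_smul v b n a'
  rw [← ha'] at h1
  have h2 := nm_nonneg v b a'
  have h3 : nm v b a' = 0 := by
    by_contra hne
    have : 1 ≤ nm v b a' := by omega
    nlinarith
  rw [ha', nm_eq_zero v b h3, smul_zero]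

end main

end Pool.Agent.H34.Ipg
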