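import Pool.Agent.H34.Ipg.Gen

/-!
# The case of the rings of integers of global fields
-/

set_option autoImplicit false
set_option linter.unusedSectionVars false

open Polynomial TensorProduct Pool.Agent.V113.IntK Pool.Agent.H17Sv

namespace Pool.Agent.H34.Ipg

universe u v w

theorem main_aux (R : Type*) [CommRing R] [IsDomain R] [IsPrincipalIdealRing R]
    [Ring.HasFiniteQuotients R] (hR : ¬ IsField R)
    (ab : AbsoluteValue R ℤ) (hab : ∀ C : ℤ, ∃ n : R, C < ab n)
    (D : Type u) (K : Type v) (A : Type w) [CommRing D] [IsDedekindDomain D] [Field K]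
    [Algebra D K] [IsFractionRing D K] [Ring A] [Algebra D A] [Module.Finite D A]
    [Module.IsTorsionFree D A] (D₀ : Subring D)
    (hD₀ : Nonempty (D₀ ≃+* ℤ) ∨ ∃ l : ℕ, l.Prime ∧ Nonempty (D₀ ≃+* (ZMod l)[X]))
    (hfin : Module.Finite D₀ D) (e : D₀ ≃+* R) :
    IsADDB D ∧
    ((∀ b : K ⊗[D] A, IsIntegral D b → b ∈ (inc D K A).range) ↔ IsProductOfClosures D K A) ∧
    ((∀ b : K ⊗[D] A, IsIntegral D b → b ∈ (inc D K A).range) → ∀ x y : A, x * y = y * x) := by
  let φ : R →+* D := D₀.subtype.comp (e.symm : R →+* D₀)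
  have h1 : D₀.subtype.Finite := hfin
  have h2 : φ.Finite := RingHom.Finite.comp h1 (RingHom.Finite.of_surjective _ e.symm.surjective)
  let _ : Algebra R D := φ.toAlgebra
  have h3 : Module.Finite R D := h2
  have h4 : FaithfulSMul R D := (faithfulSMul_iff_algebraMap_injective R D).2
    (Subtype.val_injective.comp e.symm.injective)
  exact ⟨isADDB_of_finite R hR D₀ hD₀, main R ab hab D K A⟩

theorem main_int (D : Type u) (K : Type v) (A : Type w) [CommRing D] [IsDedekindDomain D] [Field K]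
    [Algebra D K] [IsFractionRing D K] [Ring A] [Algebra D A] [Module.Finite D A]
    [Module.IsTorsionFree D A] (D₀ : Subring D)
    (hD₀ : Nonempty (D₀ ≃+* ℤ) ∨ ∃ l : ℕ, l.Prime ∧ Nonempty (D₀ ≃+* (ZMod l)[X]))
    (hfin : Module.Finite D₀ D) :
    IsADDB D ∧
    ((∀ b : K ⊗[D] A, IsIntegral D b → b ∈ (inc D K A).range) ↔ IsProductOfClosures D K A) ∧
    ((∀ b : K ⊗[D] A, IsIntegral D b → b ∈ (inc D K A).range) → ∀ x y : A, x * y = y * x) := by
  rcases hD₀ with ⟨⟨e⟩⟩ | ⟨l, hl, ⟨e⟩⟩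
  · exact main_aux ℤ Int.not_isField AbsoluteValue.abs int_unbounded D K A D₀ (Or.inl ⟨e⟩) hfin e
  · have : Fact l.Prime := ⟨hl⟩
    have := hasFiniteQuotients_poly (ZMod l)
    exact main_aux (ZMod l)[X] (Polynomial.not_isField (ZMod l)) Polynomial.cardPowDegree
      (poly_unbounded (ZMod l)) D K A D₀ (Or.inr ⟨l, hl, ⟨e⟩⟩) hfin e

end Pool.Agent.H34.Ipg
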