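import Pool.Agent.H34.Ipg.Main

/-!
# Necessary conditions over every ADDB-domain
-/

set_option autoImplicit false
set_option linter.unusedSectionVars false

open Polynomial TensorProduct Pool.Agent.V113.IntK Pool.Agent.H17Sv

namespace Pool.Agent.H34.Ipg

universe u v w

theorem eq_zero_of_forall_dvd {D : Type*} [CommRing D] [IsDomain D] (hD : ¬ IsField D) (x : D)
    (h : ∀ n : D, n ≠ 0 → ∃ d, x = n * d) : x = 0 := by
  by_contra hx
  apply hD
  obtain ⟨d, hd⟩ := h (x * x) (mul_ne_zero hx hx)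
  have hu : x * d = 1 := by
    have h1 : x * (x * d) = x * 1 := by rw [← mul_assoc, ← hd, mul_one]
    exact mul_left_cancel₀ hx h1
  refine ⟨⟨0, 1, zero_ne_one⟩, mul_comm, fun {a} ha => ?_⟩
  obtain ⟨e, he⟩ := h a ha
  exact ⟨e * d, by rw [← mul_assoc, ← he, hu]⟩

theorem reduced_gen (D : Type u) (K : Type v) (A : Type w) [CommRing D] [IsDomain D] [Field K]
    [Algebra D K] [IsFractionRing D K] [Ring A] [Algebra D A] [Module.Finite D A]
    [Module.IsTorsionFree D A] (hD : ¬ IsField D) (hA : Full D A) (a : A) (m : ℕ)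
    (h : a ^ m = 0) : a = 0 := by
  classical
  have hdiv : ∀ n : D, n ≠ 0 → ∃ a' : A, a = n • a' := fun n hn =>
    hA n a (X ^ m) hn (monic_X_pow m) (by
      rw [aeval_eq_sum_range, natDegree_scaleRoots]
      refine Finset.sum_eq_zero fun k hk => ?_
      rw [coeff_scaleRoots, coeff_X_pow]
      split_ifs with hkm
      · rw [hkm, h, smul_zero]
      · simp)
  have h0 : inc D K A a = 0 := by
    let b := Module.Free.chooseBasis K (K ⊗[D] A)
    apply b.ext_elem
    intro i
    let f : A →ₗ[D] K := (b.coord i).restrictScalars D ∘ₗ (inc D K A).toLinearMap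
    have hfg : (LinearMap.range f).FG := by
      rw [LinearMap.range_eq_map]
      exact Module.Finite.fg_top.map f
    obtain ⟨c, hc, hcf⟩ := FractionalIdeal.isFractional_of_fg (S := nonZeroDivisors D) hfg
    have hc0 : c ≠ 0 := nonZeroDivisors.ne_zero hc
    obtain ⟨x, hx⟩ := hcf (f a) ⟨a, rfl⟩
    have hx0 : x = 0 := eq_zero_of_forall_dvd hD x fun n hn => by
      obtain ⟨a', ha'⟩ := hdiv n hn
      obtain ⟨d, hd⟩ := hcf (f a') ⟨a', rfl⟩
      refine ⟨d, IsFractionRing.injective D K ?_⟩
      rw [hx, map_mul, hd, ha', map_smul, smul_comm, Algebra.smul_def n]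
    rw [hx0, map_zero] at hx
    have h2 : f a = 0 := (smul_eq_zero.1 hx.symm).resolve_left hc0
    have h3 : b.repr (inc D K A a) i = 0 := h2
    rw [h3]
    simp
  exact inc_inj (D := D) (K := K) (by rw [h0, map_zero])

theorem isProduct_comm (D : Type u) (K : Type v) (A : Type w) [CommRing D] [IsDomain D] [Field K]
    [Algebra D K] [IsFractionRing D K] [CommRing A] [Algebra D A] [Module.Finite D A]
    [Module.IsTorsionFree D A] (hD : ¬ IsField D) :
    (∀ b : K ⊗[D] A, IsIntegral D b → b ∈ (inc D K A).range) ↔ IsProductOfClosures D K A := by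
  have h2 : (∀ b : K ⊗[D] A, IsIntegral D b → b ∈ (inc D K A).range) ↔ Full D A := full_iff
  refine ⟨fun h => ?_, ?_⟩
  · exact exists_product D K A ⟨fun a ⟨m, hm⟩ => reduced_gen D K A hD (h2.1 h) a m hm⟩ h
  · rintro ⟨ι, _, L, _, _, _, _, _, ⟨e⟩⟩
    have hfs : ∀ i, FaithfulSMul D (L i) := fun i => by
      rw [faithfulSMul_iff_algebraMap_injective, IsScalarTower.algebraMap_eq D K (L i)]
      exact (algebraMap K (L i)).injective.comp (IsFractionRing.injective D K)
    exact h2.2 (Full.of_equiv e (full_pi L))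

end Pool.Agent.H34.Ipg
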