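import Pool.Agent.H34.Ipg.Str
import Pool.Agent.H34.Ipg.Addb
import Pool.Graph.R_pool_sql_team_seeded_843ab51a.H17Sv.Kk

/-!
# `Int_K(A)` over rings of integers of global fields
-/

set_option autoImplicit false

open Polynomial TensorProduct Pool.Agent.V113.IntK Pool.Agent.H17Sv

namespace Pool.Agent.H34.Ipg

universe u v w

section general

variable (D : Type u) (K : Type v) (A : Type w) [CommRing D] [IsDomain D] [Field K]
    [Algebra D K] [IsFractionRing D K] [Ring A] [Nontrivial A] [Algebra D A] [Module.Finite D A]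
    [Module.IsTorsionFree D A]

theorem closed_iff (hD : IsADDB D) : IsIntegrallyClosed (IntK D K A) ↔
      ∀ b : K ⊗[D] A, IsIntegral D b → b ∈ (inc D K A).range := by
  have hic := integrallyClosed hD
  exact ⟨fun h b hb => mem_range_of_closed hD h b hb, fun h => closed_of_mem D K A h⟩

theorem closed_iff_pruefer (hD : IsADDB D) :
    IsIntegrallyClosed (IntK D K A) ↔ IsPruefer (IntK D K A) := by
  have hic := integrallyClosed hD
  refine ⟨fun h => pruefer_of_full D K A hD ((closed_iff D K A hD).1 h), fun h => ?_⟩
  exact IsIntegrallyClosed.of_localization_maximal fun M _ _ => by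
    have := h M
    infer_instance

end general

/-- `A` is a finite product of integral closures of `D` in finite extension fields of `K`. -/
def IsProductOfClosures (D : Type u) (K : Type v) (A : Type w) [CommRing D] [Field K] [Algebra D K]
    [Ring A] [Algebra D A] : Prop :=
  ∃ (ι : Type (max v w)) (_ : Finite ι) (L : ι → Type (max v w)) (_ : ∀ i, Field (L i))
    (_ : ∀ i, Algebra D (L i)) (_ : ∀ i, Algebra K (L i)) (_ : ∀ i, IsScalarTower D K (L i))
    (_ : ∀ i, FiniteDimensional K (L i)), Nonempty (A ≃ₐ[D] ∀ i, integralClosure D (L i))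

/-- The main theorem over a base ring `R` with an unbounded absolute value. -/
theorem main (R : Type*) [CommRing R] [IsDomain R] [IsPrincipalIdealRing R]
    (ab : AbsoluteValue R ℤ) (hab : ∀ C : ℤ, ∃ n : R, C < ab n)
    (D : Type u) (K : Type v) (A : Type w) [CommRing D] [IsDomain D] [Field K]
    [Algebra D K] [IsFractionRing D K] [Ring A] [Algebra D A] [Module.Finite D A]
    [Module.IsTorsionFree D A] [Algebra R D] [Module.Finite R D] [FaithfulSMul R D] :
    ((∀ b : K ⊗[D] A, IsIntegral D b → b ∈ (inc D K A).range) ↔ IsProductOfClosures D K A) ∧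
    ((∀ b : K ⊗[D] A, IsIntegral D b → b ∈ (inc D K A).range) → ∀ x y : A, x * y = y * x) := by
  let _ : Algebra R K := ((algebraMap D K).comp (algebraMap R D)).toAlgebra
  have hK : IsScalarTower R D K := IsScalarTower.of_algebraMap_eq fun _ => rfl
  let _ : Algebra R A := ((algebraMap D A).comp (algebraMap R D)).toAlgebra' fun r x =>
    Algebra.commutes (algebraMap R D r) x
  have hA : IsScalarTower R D A := IsScalarTower.of_algebraMap_eq fun _ => rfl
  have hf : Module.Finite R A := Module.Finite.trans D A
  have htD : Module.IsTorsionFree R D := inferInstance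
  have ht : Module.IsTorsionFree R A := Module.IsTorsionFree.trans D
  have h1 : (∀ b : K ⊗[D] A, IsIntegral D b → b ∈ (inc D K A).range) ↔ Full R A := full_iff
  have h2 : (∀ b : K ⊗[D] A, IsIntegral D b → b ∈ (inc D K A).range) ↔ Full D A := full_iff
  refine ⟨⟨fun h => ?_, ?_⟩, fun h x y => comm_of_full ab hab (h1.1 h) y x⟩
  · have hred : ∀ (a : A) (m : ℕ), a ^ m = 0 → a = 0 := reduced_of_full ab hab (h1.1 h)
    let _ : CommRing A := { (inferInstance : Ring A) with
      mul_comm := fun x y => comm_of_full ab hab (h1.1 h) y x }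
    exact exists_product D K A ⟨fun a ⟨m, hm⟩ => hred a m hm⟩ h
  · rintro ⟨ι, _, L, _, _, _, _, _, ⟨e⟩⟩
    have hfs : ∀ i, FaithfulSMul D (L i) := fun i => by
      rw [faithfulSMul_iff_algebraMap_injective, IsScalarTower.algebraMap_eq D K (L i)]
      exact (algebraMap K (L i)).injective.comp (IsFractionRing.injective D K)
    exact h2.2 (Full.of_equiv e (full_pi L))

theorem int_unbounded : ∀ C : ℤ, ∃ n : ℤ, C < AbsoluteValue.abs n := fun C =>
  ⟨|C| + 1, by
    have h1 := le_abs_self C
    have h2 := abs_nonneg C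
    rw [AbsoluteValue.abs_apply, abs_of_nonneg (by omega)]
    omega⟩

theorem poly_unbounded (F : Type*) [Field F] [Fintype F] :
    ∀ C : ℤ, ∃ n : F[X], C < Polynomial.cardPowDegree n := fun C =>
  ⟨X ^ C.toNat, by
    classical
    rw [Polynomial.cardPowDegree_nonzero _ (pow_ne_zero _ X_ne_zero), natDegree_X_pow]
    have h1 : (C.toNat : ℤ) < (Fintype.card F : ℤ) ^ C.toNat := by
      exact_mod_cast Nat.lt_pow_self Fintype.one_lt_card
    have h2 := Int.self_le_toNat C
    omega⟩

end Pool.Agent.H34.Ipg
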