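import Pool.Agent.H34.Ipg.Tens

/-!
# Commutative reduced algebras which contain all their integral fractions are products of integral
# closures
-/

set_option autoImplicit false
set_option linter.unusedSectionVars false

open Polynomial TensorProduct Pool.Agent.V113.IntK

namespace Pool.Agent.H34.Ipg

universe u v w

theorem Full.of_equiv {D A A' : Type*} [CommRing D] [Ring A] [Ring A'] [Algebra D A] [Algebra D A']
    (e : A ≃ₐ[D] A') (h : Full D A') : Full D A := by
  intro n a P hn hP h0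
  have h1 : aeval (e a) (P.scaleRoots n) = 0 := by
    have := aeval_algHom_apply (e : A →ₐ[D] A') a (P.scaleRoots n)
    rw [h0, map_zero] at this
    exact this
  obtain ⟨y, hy⟩ := h n (e a) P hn hP h1
  refine ⟨e.symm y, e.injective ?_⟩
  rw [map_smul, e.apply_symm_apply, hy]

theorem full_pi {D ι : Type*} (L : ι → Type*) [CommRing D] [IsDomain D] [∀ i, Field (L i)]
    [∀ i, Algebra D (L i)] [∀ i, FaithfulSMul D (L i)] :
    Full D (∀ i, integralClosure D (L i)) := by
  intro n a P hn hP h0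
  have key : ∀ i, ∃ y : integralClosure D (L i), a i = n • y := by
    intro i
    have h1 : aeval (a i : L i) (P.scaleRoots n) = 0 := by
      have h2 := aeval_algHom_apply (Pi.evalAlgHom D (fun i => integralClosure D (L i)) i) a
        (P.scaleRoots n)
      rw [h0, map_zero] at h2
      have h3 := aeval_algHom_apply (integralClosure D (L i)).val (a i) (P.scaleRoots n)
      have h4 : aeval (a i) (P.scaleRoots n) = 0 := h2
      rw [h4, map_zero] at h3
      exact h3
    have hnL : algebraMap D (L i) n ≠ 0 := fun h =>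
      hn ((map_eq_zero_iff _ (FaithfulSMul.algebraMap_injective D (L i))).1 h)
    have h2 : n • ((algebraMap D (L i) n)⁻¹ * (a i : L i)) = (a i : L i) := by
      rw [Algebra.smul_def, ← mul_assoc, mul_inv_cancel₀ hnL, one_mul]
    have h3 := aeval_scaleRoots n ((algebraMap D (L i) n)⁻¹ * (a i : L i)) P
    rw [h2, h1, Algebra.smul_def, map_pow] at h3
    have h4 : aeval ((algebraMap D (L i) n)⁻¹ * (a i : L i)) P = 0 :=
      (mul_eq_zero.1 h3.symm).resolve_left (pow_ne_zero _ hnL)
    exact ⟨⟨_, P, hP, h4⟩, Subtype.ext h2.symm⟩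
  choose y hy using key
  exact ⟨y, funext hy⟩

theorem exists_product (D : Type u) (K : Type v) (A : Type w) [CommRing D] [IsDomain D] [Field K]
    [Algebra D K] [IsFractionRing D K] [CommRing A] [Algebra D A] [Module.Finite D A]
    [Module.IsTorsionFree D A] (hred : IsReduced A)
    (hA : ∀ b : K ⊗[D] A, IsIntegral D b → b ∈ (inc D K A).range) :
    ∃ (ι : Type (max v w)) (_ : Finite ι) (L : ι → Type (max v w)) (_ : ∀ i, Field (L i))
      (_ : ∀ i, Algebra D (L i)) (_ : ∀ i, Algebra K (L i)) (_ : ∀ i, IsScalarTower D K (L i))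
      (_ : ∀ i, FiniteDimensional K (L i)), Nonempty (A ≃ₐ[D] ∀ i, integralClosure D (L i)) := by
  classical
  have hred' : IsReduced (K ⊗[D] A) := by
    constructor
    rintro b ⟨m, hm⟩
    obtain ⟨n, a, hn, hna⟩ := exists_smul D b
    have h1 : inc D K A (a ^ m) = 0 := by
      rw [map_pow, ← hna, _root_.smul_pow, hm, smul_zero]
    have h2 : a ^ m = 0 := inc_inj (D := D) (K := K) (by rw [h1, map_zero])
    have h3 : a = 0 := hred.eq_zero a ⟨m, h2⟩
    rw [h3, map_zero] at hna
    exact r_cancel D hn (by rw [hna, smul_zero])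
  have hart : IsArtinianRing (K ⊗[D] A) := IsArtinianRing.of_finite K _
  let e := IsArtinianRing.equivPi (K ⊗[D] A)
  let F : ∀ I : MaximalSpectrum (K ⊗[D] A), Field ((K ⊗[D] A) ⧸ I.asIdeal) := fun I =>
    haveI := I.isMaximal
    Ideal.Quotient.field I.asIdeal
  have h1 : ∀ I : MaximalSpectrum (K ⊗[D] A), Module.Finite K ((K ⊗[D] A) ⧸ I.asIdeal) := fun I =>
    Module.Finite.of_surjective (Ideal.Quotient.mkₐ K I.asIdeal).toLinearMap
        Ideal.Quotient.mk_surjective
  let f : ∀ I : MaximalSpectrum (K ⊗[D] A), A →ₐ[D] ((K ⊗[D] A) ⧸ I.asIdeal) := fun I =>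
    (Ideal.Quotient.mkₐ D I.asIdeal).comp (inc D K A)
  have hf : ∀ I a, IsIntegral D (f I a) := fun I a => (IsIntegral.of_finite D a).map (f I)
  let Φ : A →ₐ[D] ∀ I : MaximalSpectrum (K ⊗[D] A), integralClosure D ((K ⊗[D] A) ⧸ I.asIdeal) :=
    AlgHom.pi fun I => (f I).codRestrict (integralClosure D ((K ⊗[D] A) ⧸ I.asIdeal)) (hf I)
  have hmk : ∀ I (x : K ⊗[D] A), e x I = Ideal.Quotient.mk I.asIdeal x := fun I x => rfl
  have hinj : Function.Injective Φ := by
    rw [injective_iff_map_eq_zero]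
    intro a ha
    have h1 : e (inc D K A a) = 0 := by
      funext I
      exact congrArg Subtype.val (congrFun ha I)
    have h2 : inc D K A a = 0 := e.injective (by rw [h1, map_zero])
    exact inc_inj (D := D) (K := K) (by rw [h2, map_zero])
  have hsurj : Function.Surjective Φ := by
    intro y
    let z : K ⊗[D] A := e.symm fun I => (y I : (K ⊗[D] A) ⧸ I.asIdeal)
    have hz : ∀ I, Ideal.Quotient.mkₐ D I.asIdeal z = (y I : (K ⊗[D] A) ⧸ I.asIdeal) := fun I =>
      congrFun (e.apply_symm_apply fun I => (y I : (K ⊗[D] A) ⧸ I.asIdeal)) I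
    have hy : ∀ I : MaximalSpectrum (K ⊗[D] A), ∃ P : D[X], P.Monic ∧
        aeval (Ideal.Quotient.mkₐ D I.asIdeal z) P = 0 := by
      intro I
      rw [hz]
      obtain ⟨P, hP, h0⟩ := (y I).2
      exact ⟨P, hP, h0⟩
    choose P hP hP0 using hy
    have : Fintype (MaximalSpectrum (K ⊗[D] A)) := Fintype.ofFinite _
    have hzi : IsIntegral D z := by
      refine ⟨∏ I, P I, monic_prod_of_monic _ _ fun I _ => hP I, ?_⟩
      change aeval z (∏ I, P I) = 0
      apply e.injective
      rw [map_zero]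
      funext I
      have h5 := aeval_algHom_apply (Ideal.Quotient.mkₐ D I.asIdeal) z (∏ I, P I)
      rw [hmk]
      change Ideal.Quotient.mkₐ D I.asIdeal (aeval z (∏ I, P I)) = 0
      rw [← h5, map_prod]
      exact Finset.prod_eq_zero (Finset.mem_univ I) (hP0 I)
    obtain ⟨a, ha⟩ := hA z hzi
    refine ⟨a, funext fun I => Subtype.ext ?_⟩
    rw [← hz I, ← ha]
    rfl
  exact ⟨MaximalSpectrum (K ⊗[D] A), inferInstance, fun I => (K ⊗[D] A) ⧸ I.asIdeal, F,
    fun I => inferInstanceAs (Algebra D ((K ⊗[D] A) ⧸ I.asIdeal)),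
    fun I => inferInstanceAs (Algebra K ((K ⊗[D] A) ⧸ I.asIdeal)),
    fun I => inferInstanceAs (IsScalarTower D K ((K ⊗[D] A) ⧸ I.asIdeal)), h1,
    ⟨AlgEquiv.ofBijective Φ ⟨hinj, hsurj⟩⟩⟩

end Pool.Agent.H34.Ipg
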