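import Pool.Agent.H34.Ipg.Core
import Pool.Graph.R_pool_sql_team_seeded_843ab51a.V113.IntK.Defs

/-!
# `A` contains all elements of `K ⊗ A` which are integral over `D` if and only if `Full R A`
-/

set_option autoImplicit false
set_option linter.unusedSectionVars false

open Polynomial TensorProduct Pool.Agent.V113.IntK

namespace Pool.Agent.H34.Ipg

variable {R D K A : Type*} [CommRing R] [IsDomain R] [CommRing D] [IsDomain D] [Algebra R D]
  [Module.Finite R D] [FaithfulSMul R D] [Field K] [Algebra D K] [IsFractionRing D K] [Algebra R K]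
  [IsScalarTower R D K] [Ring A] [Algebra D A] [Algebra R A] [IsScalarTower R D A]

theorem isLoc {D K A : Type*} [CommRing D] [Field K] [Algebra D K] [IsFractionRing D K]
    [Ring A] [Algebra D A] :
    IsLocalizedModule (nonZeroDivisors D) (TensorProduct.mk D K A 1) :=
  (isLocalizedModule_iff_isBaseChange (nonZeroDivisors D) K _).2 (TensorProduct.isBaseChange D A K)

theorem inc_inj {D K A : Type*} [CommRing D] [IsDomain D] [Field K] [Algebra D K]
    [IsFractionRing D K] [Ring A] [Algebra D A] [Module.IsTorsionFree D A] :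
    Function.Injective (inc D K A) := by
  rw [injective_iff_map_eq_zero]
  intro a ha
  have h := isLoc (D := D) (K := K) (A := A)
  have h1 : TensorProduct.mk D K A 1 a = 0 := ha
  obtain ⟨s, hs⟩ :=
    (IsLocalizedModule.eq_zero_iff (nonZeroDivisors D) (TensorProduct.mk D K A 1)).1 h1
  have hs' : (s : D) • a = 0 := hs
  exact (smul_eq_zero_iff_right (nonZeroDivisors.coe_ne_zero s)).1 hs'

variable (R) in
theorem exists_smul (b : K ⊗[D] A) : ∃ (n : R) (a : A), n ≠ 0 ∧ n • b = inc D K A a := by
  have h := isLoc (D := D) (K := K) (A := A)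
  obtain ⟨⟨a, c⟩, hac⟩ : ∃ x : A × nonZeroDivisors D, x.2 • b = inc D K A x.1 :=
    IsLocalizedModule.surj (nonZeroDivisors D) (TensorProduct.mk D K A 1) b
  have hac' : (c : D) • b = inc D K A a := hac
  have hc0 : (c : D) ≠ 0 := nonZeroDivisors.coe_ne_zero c
  obtain ⟨N, v, hN, hv, -⟩ := exists_inv R (c : D) fun x hx =>
    (mul_eq_zero.1 hx).resolve_right hc0
  refine ⟨N, v • a, hN, ?_⟩
  rw [map_smul, ← hac', smul_smul, hv, algebraMap_smul]

theorem r_ne_zero {R D K : Type*} [CommRing R] [IsDomain R] [CommRing D] [IsDomain D] [Algebra R D]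
    [FaithfulSMul R D] [Field K] [Algebra D K] [IsFractionRing D K] [Algebra R K]
    [IsScalarTower R D K] {n : R} (hn : n ≠ 0) : algebraMap R K n ≠ 0 := by
  rw [IsScalarTower.algebraMap_apply R D K]
  intro h
  have h1 := (map_eq_zero_iff _ (IsFractionRing.injective D K)).1 h
  exact hn ((map_eq_zero_iff _ (FaithfulSMul.algebraMap_injective R D)).1 h1)

variable (D) in
theorem r_cancel {n : R} (hn : n ≠ 0) {x y : K ⊗[D] A} (h : n • x = n • y) : x = y := by
  rw [← algebraMap_smul K n x, ← algebraMap_smul K n y] at h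
  exact smul_right_injective _ (r_ne_zero (D := D) hn) h

theorem full_iff [Module.IsTorsionFree D A] :
    (∀ b : K ⊗[D] A, IsIntegral D b → b ∈ (inc D K A).range) ↔ Full R A := by
  constructor
  · intro hb n a P hn hP h0
    have hnK : algebraMap R K n ≠ 0 := r_ne_zero (D := D) hn
    set b : K ⊗[D] A := ((algebraMap R K n)⁻¹) ⊗ₜ[D] a with hbdef
    have h1 : n • b = inc D K A a := by
      rw [hbdef, ← algebraMap_smul K n, TensorProduct.smul_tmul', smul_eq_mul,
        mul_inv_cancel₀ hnK]
      rfl
    have h2 := aeval_scaleRoots n b P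
    rw [h1] at h2
    have h2' : aeval (((inc D K A).restrictScalars R) a) (P.scaleRoots n) =
        n ^ P.natDegree • aeval b P := h2
    rw [aeval_algHom_apply, h0, map_zero] at h2'
    have h3 : aeval b P = 0 :=
      r_cancel D (pow_ne_zero P.natDegree hn) (by rw [← h2', smul_zero])
    have h4 : IsIntegral R b := ⟨P, hP, h3⟩
    obtain ⟨a', ha'⟩ := hb b h4.tower_top
    refine ⟨a', inc_inj (D := D) (K := K) ?_⟩
    have ha'' : inc D K A a' = b := ha'
    have h5 : (inc D K A).restrictScalars R (n • a') = n • inc D K A a' := map_smul _ _ _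
    rw [← h1, ← ha'']
    exact h5.symm
  · intro hA b hb
    have hint : Algebra.IsIntegral R D := inferInstance
    have h1 : IsIntegral R b := isIntegral_trans (A := D) b hb
    obtain ⟨P, hP, h0⟩ := h1
    replace h0 : aeval b P = 0 := h0
    obtain ⟨n, a, hn, hna⟩ := exists_smul R b
    have h2 := aeval_scaleRoots n b P
    rw [hna, h0, smul_zero] at h2
    have h2' : aeval (((inc D K A).restrictScalars R) a) (P.scaleRoots n) = 0 := h2
    rw [aeval_algHom_apply] at h2'
    have h3 : aeval a (P.scaleRoots n) = 0 :=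
      inc_inj (D := D) (K := K) (by rw [map_zero]; exact h2')
    obtain ⟨a', ha'⟩ := hA n a P hn hP h3
    refine ⟨a', r_cancel D hn ?_⟩
    have h5 : (inc D K A).restrictScalars R (n • a') = n • inc D K A a' := map_smul _ _ _
    rw [hna, ha']
    exact h5.symm

end Pool.Agent.H34.Ipg
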